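import Mathlib
import Pool.Agent.H392Z.MO.Spec

/-!
Sub-statements for the analytic inputs of `Pool.Agent.H392Z.MO.Spec`. Only definitions and
statements (as `Prop`s); the proofs are in other files.
-/

set_option autoImplicit false

open Filter Topology Finset MeasureTheory

namespace Pool.Agent.H293Z.MO

open Pool.Agent.H392Z.MO

/-! Part I1: few intervals are poor in primes. -/

/-- Gaussian weighted sum of the von Mangoldt function. -/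
noncomputable def GG (δ u : ℝ) : ℝ :=
  ∑' n : ℕ, ArithmeticFunction.vonMangoldt n * Real.exp (-((u - Real.log n) ^ 2 / (2 * δ ^ 2)))

/-- Its main term. -/
noncomputable def MM (δ u : ℝ) : ℝ :=
  ∫ v in Set.Ioi (0 : ℝ), Real.exp (v - (u - v) ^ 2 / (2 * δ ^ 2))

/-- No zero and a bound for the logarithmic derivative of `(s - 1) ζ(s)` in a strip. -/
def LD (σ C : ℝ) : Prop :=
  ∀ s : ℂ, σ ≤ s.re → s.re ≤ 2 → riemannZeta₁ s ≠ 0 ∧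
    ‖deriv riemannZeta₁ s / riemannZeta₁ s‖ ≤ C * Real.log (|s.im| + 3)

/-- Task LD. -/
def S_LD : Prop := NoZero → ∀ σ : ℝ, 1 / 2 < σ → σ ≤ 1 → ∃ C : ℝ, 0 < C ∧ LD σ C

/-- The integrand on the line with real part `σ`. -/
noncomputable def ker (σ δ t : ℝ) : ℂ :=
  Complex.exp ((δ : ℂ) ^ 2 * ((σ : ℂ) + t * Complex.I) ^ 2 / 2) *
    (deriv riemannZeta₁ ((σ : ℂ) + t * Complex.I) / riemannZeta₁ ((σ : ℂ) + t * Complex.I))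

/-- Task GF: the Gaussian explicit formula. -/
def S_GF : Prop :=
  ∀ σ C : ℝ, 0 < σ → σ ≤ 2 → LD σ C → ∀ δ : ℝ, 0 < δ → ∀ u : ℝ,
    ((GG δ u - MM δ u : ℝ) : ℂ) = -(((δ / Real.sqrt (2 * Real.pi) * Real.exp (σ * u) : ℝ) : ℂ) *
      ∫ t : ℝ, ker σ δ t * Complex.exp (Complex.I * t * u))

/-- Task PL: a Plancherel inequality. -/
def S_PL : Prop :=
  ∀ φ : ℝ → ℂ, Integrable φ → Integrable (fun t => ‖φ t‖ ^ 2) → ∀ a b : ℝ, a ≤ b →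
    ∫ u in a..b, ‖∫ t : ℝ, φ t * Complex.exp (Complex.I * t * u)‖ ^ 2 ≤
      4 * Real.pi * ∫ t : ℝ, ‖φ t‖ ^ 2

/-- The mean square estimate. -/
def MS : Prop :=
  ∀ ε : ℝ, 0 < ε → ε ≤ 1 / 4 → ∃ C : ℝ, 0 < C ∧ ∀ δ : ℝ, 0 < δ → δ ≤ 1 →
    Continuous (fun u => GG δ u - MM δ u) ∧ ∀ a b : ℝ, 0 ≤ a → a ≤ b →
      ∫ u in a..b, (GG δ u - MM δ u) ^ 2 ≤ C * δ ^ (1 - ε) * Real.exp ((1 + 2 * ε) * b)

/-- Task MS. -/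
def S_MS : Prop := S_LD → S_GF → S_PL → NoZero → MS

/-- Task FP. -/
def S_FP : Prop := MS → FewPoor

theorem i1_of (h1 : S_LD) (h2 : S_GF) (h3 : S_PL) (h4 : S_MS) (h5 : S_FP) : S_I1 :=
  fun h => h5 (h4 h1 h2 h3 h)

/-! Part I3: rough numbers with a large prime factor. -/

/-- Task PSI: sawtooth sums near the diagonal of the hyperbola. -/
def S_PSI : Prop :=
  ∃ C : ℝ, 0 < C ∧ ∀ F : ℝ, 1 ≤ F → ∀ K₁ K₂ : ℕ, F ^ (45 / 100 : ℝ) ≤ K₁ → K₁ ≤ K₂ →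
    (K₂ : ℝ) ≤ F ^ (55 / 100 : ℝ) →
      |∑ d ∈ Ioc K₁ K₂, (Int.fract (F / d) - 1 / 2)| ≤ C * F ^ (45 / 100 : ℝ)

/-- Task SEL: Selberg weights. -/
def S_SEL : Prop :=
  ∃ C : ℝ, 0 < C ∧ ∀ z : ℝ, 2 ≤ z → ∃ ρ : ℕ → ℝ, ρ 1 = 1 ∧ (∀ d, |ρ d| ≤ 1) ∧
    |∑ d ∈ Icc 1 ⌊z⌋₊, ∑ e ∈ Icc 1 ⌊z⌋₊, ρ d * ρ e / (Nat.lcm d e : ℝ)| ≤ C / Real.log z

open Classical in
/-- Products of two rough numbers of size about `x^(1/2)` in a short interval. -/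
def MED : Prop :=
  ∃ C x₀ : ℝ, 0 < C ∧ ∀ x : ℝ, x₀ ≤ x → ∀ H : ℝ, x ^ (499 / 1000 : ℝ) ≤ H → H ≤ x ^ (1 / 2 : ℝ) →
    ∀ D₁ D₂ z₁ z₂ : ℝ, x ^ (49 / 100 : ℝ) ≤ D₁ → D₁ ≤ D₂ → D₂ ≤ x ^ (51 / 100 : ℝ) →
      2 ≤ z₁ → z₁ ≤ x ^ (1 / 100 : ℝ) → 2 ≤ z₂ → z₂ ≤ x ^ (1 / 100 : ℝ) →
        ∑ d ∈ (Ioc ⌊D₁⌋₊ ⌊D₂⌋₊).filter (Rough z₁),
          (((Ival x H).filter (fun n => d ∣ n ∧ Rough z₂ (n / d))).card : ℝ) ≤
            C * H * (1 + Real.log (D₂ / D₁)) / (Real.log z₁ * Real.log z₂)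

/-- Task MED. -/
def S_MED : Prop := S_PSI → S_SEL → MED

/-- The density of rough numbers. -/
noncomputable def VV (z : ℝ) : ℝ :=
  ∏ p ∈ (range (⌊z⌋₊ + 1)).filter Nat.Prime, (1 - 1 / (p : ℝ))

open Classical in
/-- Task FL: the fundamental lemma of the sieve for an interval. -/
def S_FL : Prop :=
  ∃ (s : ℕ) (C : ℝ), 0 < C ∧ ∀ z : ℝ, 2 ≤ z → ∀ a L : ℕ,
    |(((Ico a (a + L)).filter (Rough z)).card : ℝ) - L * VV z| ≤ 1 / 20 * L * VV z + C * z ^ s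

open Classical in
/-- As `Handles`, for intervals of length between `x^(1/2-σ)` and `x^(1/2)`. -/
def Handles' (κ σ c₁ : ℝ) : Prop :=
  ∃ x₀ : ℝ, ∀ x : ℝ, x₀ ≤ x → ∀ H : ℝ, x ^ (1 / 2 - σ) ≤ H → H ≤ x ^ (1 / 2 : ℝ) →
    c₁ * H / Real.log x ≤ (((Ival x H).filter (fun n => Rough (x ^ σ) n ∧
      ∃ q : ℕ, q.Prime ∧ q ∣ n ∧ x ^ (1 / 2 + κ) ≤ (q : ℝ))).card : ℝ)

/-- The form of I3 that is proved. -/
def S_I3' : Prop :=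
  ∃ σ c₁ : ℝ, 0 < σ ∧ σ ≤ 1 / 1000 ∧ 0 < c₁ ∧ Handles' σ σ c₁

/-- Task CH: the Chebyshev argument. -/
def S_CH : Prop := S_FL → MED → S_I3'

/-- Task I2 from the Selberg weights. -/
def S_RB : Prop := S_SEL → S_I2

end Pool.Agent.H293Z.MO
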