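import Mathlib
import Pool.Agent.H392Z.MO.Spec

set_option autoImplicit false

open Finset

namespace Pool.Agent.H293Z.MO

open Pool.Agent.H392Z.MO

/-- Spacing of reduced fractions. -/
theorem farey_card (P : Finset (ℕ × ℕ)) (α ξ : ℝ) (hξ : 0 ≤ ξ) (t : ℕ)
    (hP : ∀ p ∈ P, Nat.Coprime p.1 p.2 ∧ 1 ≤ p.2 ∧ p.2 ≤ t ∧ α ≤ (p.1 : ℝ) / p.2 ∧
      (p.1 : ℝ) / p.2 ≤ α + ξ) : (P.card : ℝ) ≤ ξ * (t : ℝ) ^ 2 + 1 := by
  have h1 : P.card ≤ (range (⌊ξ * (t : ℝ) ^ 2⌋₊ + 1)).card := by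
    refine card_le_card_of_injOn (fun p => ⌊((p.1 : ℝ) / p.2 - α) * (t : ℝ) ^ 2⌋₊) ?_ ?_
    · intro p hp
      obtain ⟨_, _, _, h4, h5⟩ := hP p (by simpa using hp)
      simp only [coe_range, Set.mem_Iio]
      exact Nat.lt_succ_of_le (Nat.floor_le_floor (by
        apply mul_le_mul_of_nonneg_right (by linarith) (by positivity)))
    · intro p hp p' hp' heq
      obtain ⟨c1, b1, t1, l1, u1⟩ := hP p (by simpa using hp)
      obtain ⟨c2, b2, t2, l2, u2⟩ := hP p' (by simpa using hp')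
      simp only at heq
      have hb1 : (0 : ℝ) < p.2 := by exact_mod_cast b1
      have hb2 : (0 : ℝ) < p'.2 := by exact_mod_cast b2
      have ht1 : (p.2 : ℝ) ≤ t := by exact_mod_cast t1
      have ht2 : (p'.2 : ℝ) ≤ t := by exact_mod_cast t2
      have n1 : 0 ≤ ((p.1 : ℝ) / p.2 - α) * (t : ℝ) ^ 2 := mul_nonneg (by linarith) (by positivity)
      have n2 : 0 ≤ ((p'.1 : ℝ) / p'.2 - α) * (t : ℝ) ^ 2 := mul_nonneg (by linarith) (by positivity)
      have f1 := Nat.floor_le n1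
      have f2 := Nat.floor_le n2
      have g1 := Nat.lt_floor_add_one (((p.1 : ℝ) / p.2 - α) * (t : ℝ) ^ 2)
      have g2 := Nat.lt_floor_add_one (((p'.1 : ℝ) / p'.2 - α) * (t : ℝ) ^ 2)
      rw [heq] at f1 g1
      have hd : |((p.1 : ℝ) / p.2 - (p'.1 : ℝ) / p'.2) * (t : ℝ) ^ 2| < 1 := by
        rw [abs_lt]; constructor <;> nlinarith
      have he : ((p.1 : ℝ) / p.2 - (p'.1 : ℝ) / p'.2) =
          ((p.1 : ℝ) * p'.2 - p'.1 * p.2) / (p.2 * p'.2) := by field_simp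
      have hprod : (p.2 : ℝ) * p'.2 ≤ (t : ℝ) ^ 2 := by nlinarith
      have hz : |(p.1 : ℝ) * p'.2 - p'.1 * p.2| < 1 := by
        rw [he, abs_mul, abs_div, abs_of_pos (mul_pos hb1 hb2),
          abs_of_nonneg (by positivity : (0 : ℝ) ≤ (t : ℝ) ^ 2), div_mul_eq_mul_div,
          div_lt_one (mul_pos hb1 hb2)] at hd
        have h0 := abs_nonneg ((p.1 : ℝ) * p'.2 - p'.1 * p.2)
        have : |(p.1 : ℝ) * p'.2 - p'.1 * p.2| * (p.2 * p'.2) < 1 * (p.2 * p'.2) := by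
          nlinarith
        exact lt_of_mul_lt_mul_right this (mul_pos hb1 hb2).le
      have hz' : |(p.1 : ℤ) * p'.2 - p'.1 * p.2| < 1 := by exact_mod_cast hz
      have hz2 : (p.1 : ℤ) * p'.2 = p'.1 * p.2 := by
        have := Int.abs_lt_one_iff.1 hz'
        linarith
      have hz3 : p.1 * p'.2 = p'.1 * p.2 := by exact_mod_cast hz2
      have d1 : p.2 ∣ p'.2 := by
        have : p.2 ∣ p.1 * p'.2 := ⟨p'.1, by rw [hz3]; ring⟩
        exact (Nat.Coprime.dvd_mul_left c1.symm).1 this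
      have d2 : p'.2 ∣ p.2 := by
        have : p'.2 ∣ p'.1 * p.2 := ⟨p.1, by rw [← hz3]; ring⟩
        exact (Nat.Coprime.dvd_mul_left c2.symm).1 this
      have e2 : p.2 = p'.2 := Nat.dvd_antisymm d1 d2
      have e1 : p.1 = p'.1 := by
        rw [← e2] at hz3
        exact Nat.eq_of_mul_eq_mul_right b1 hz3
      exact Prod.ext e1 e2
  rw [card_range] at h1
  have h2 : (P.card : ℝ) ≤ (⌊ξ * (t : ℝ) ^ 2⌋₊ : ℝ) + 1 := by exact_mod_cast h1
  have h3 := Nat.floor_le (show 0 ≤ ξ * (t : ℝ) ^ 2 by positivity)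
  linarith

/-- Partial summation for the reciprocals of the denominators. -/
theorem abel_inv {ι : Type} (P : Finset ι) (b : ι → ℕ) (ξ β : ℝ) (hξ : 0 ≤ ξ) (hβ : 0 ≤ β) (M : ℕ)
    (h1 : ∀ p ∈ P, 1 ≤ b p ∧ b p ≤ M ∧ 1 / (b p : ℝ) ≤ β)
    (h2 : ∀ t : ℕ, ((P.filter (fun p => b p ≤ t)).card : ℝ) ≤ ξ * (t : ℝ) ^ 2 + 1) :
    ∑ p ∈ P, 1 / (b p : ℝ) ≤ β + 2 * ξ * M := by
  rcases P.eq_empty_or_nonempty with rfl | hne
  · simp only [sum_empty]; positivity
  obtain ⟨p0, hp0, hmin⟩ := P.exists_min_image b hne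
  obtain ⟨hb0, hb0M, hb0β⟩ := h1 p0 hp0
  have key : ∀ t : ℕ, b p0 ≤ t →
      ∑ p ∈ P, (if b p ≤ t then 1 / (b p : ℝ) - 1 / (t : ℝ) else 0) ≤ ξ * t + β - 1 / (t : ℝ) := by
    intro t ht
    induction t, ht using Nat.le_induction with
    | base =>
      have : ∑ p ∈ P, (if b p ≤ b p0 then 1 / (b p : ℝ) - 1 / (b p0 : ℝ) else 0) = 0 := by
        refine sum_eq_zero fun p hp => ?_
        split_ifs with h
        · have : b p = b p0 := le_antisymm h (hmin p hp)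
          rw [this]; ring
        · rfl
      rw [this]
      have : 0 ≤ ξ * (b p0 : ℝ) := by positivity
      linarith
    | succ t ht ih =>
      have ht1 : (1 : ℝ) ≤ t := by exact_mod_cast hb0.trans ht
      have e : ∑ p ∈ P, (if b p ≤ t + 1 then 1 / (b p : ℝ) - 1 / ((t + 1 : ℕ) : ℝ) else 0) =
          ∑ p ∈ P, (if b p ≤ t then 1 / (b p : ℝ) - 1 / (t : ℝ) else 0) +
            ((P.filter (fun p => b p ≤ t)).card : ℝ) * (1 / (t : ℝ) - 1 / ((t : ℝ) + 1)) := by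
        rw [card_filter, Nat.cast_sum, sum_mul, ← sum_add_distrib]
        refine sum_congr rfl fun p _ => ?_
        by_cases h : b p ≤ t
        · rw [if_pos h, if_pos h, if_pos (by omega)]; push_cast; ring
        · rw [if_neg h, if_neg h]
          by_cases h' : b p ≤ t + 1
          · have : b p = t + 1 := by omega
            rw [if_pos h', this]; push_cast; ring
          · rw [if_neg h']; push_cast; ring
      rw [e]
      have hd : 1 / (t : ℝ) - 1 / ((t : ℝ) + 1) = 1 / ((t : ℝ) * (t + 1)) := by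
        field_simp; ring
      have hd0 : 0 ≤ 1 / (t : ℝ) - 1 / ((t : ℝ) + 1) := by rw [hd]; positivity
      have h3 := mul_le_mul_of_nonneg_right (h2 t) hd0
      have h4 : ξ * (t : ℝ) ^ 2 * (1 / (t : ℝ) - 1 / ((t : ℝ) + 1)) ≤ ξ := by
        rw [hd, mul_assoc]
        apply mul_le_of_le_one_right hξ
        rw [mul_one_div, div_le_one (by positivity)]
        nlinarith
      push_cast
      nlinarith
  have hM1 : (1 : ℝ) ≤ M := by exact_mod_cast hb0.trans hb0M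
  have k := key M hb0M
  have e : ∑ p ∈ P, (if b p ≤ M then 1 / (b p : ℝ) - 1 / (M : ℝ) else 0) =
      ∑ p ∈ P, 1 / (b p : ℝ) - P.card * (1 / (M : ℝ)) := by
    rw [sum_congr rfl (fun p hp => if_pos (h1 p hp).2.1), sum_sub_distrib, sum_const, nsmul_eq_mul]
  have h5 := h2 M
  rw [filter_true_of_mem (fun p hp => (h1 p hp).2.1)] at h5
  have h6 : (P.card : ℝ) * (1 / (M : ℝ)) ≤ ξ * M + 1 / (M : ℝ) := by
    have : (ξ * (M : ℝ) ^ 2 + 1) * (1 / (M : ℝ)) = ξ * M + 1 / (M : ℝ) := by field_simp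
    rw [← this]
    exact mul_le_mul_of_nonneg_right h5 (by positivity)
  rw [e] at k
  linarith

/-- Naturals `G` with `s ≤ b G < s + w`. -/
theorem card_mul_mem (T : Finset ℕ) (b : ℕ) (hb : 1 ≤ b) (s w : ℝ) (hw : 0 ≤ w)
    (hT : ∀ G ∈ T, s ≤ (b : ℝ) * G ∧ (b : ℝ) * G < s + w) : (T.card : ℝ) ≤ 1 + w / b := by
  have hb0 : (0 : ℝ) < b := by exact_mod_cast hb
  rcases T.eq_empty_or_nonempty with rfl | hne
  · simp only [card_empty, Nat.cast_zero]; positivity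
  obtain ⟨G0, hG0, hmin⟩ := T.exists_min_image id hne
  have hsub : T ⊆ Icc G0 (G0 + ⌊w / b⌋₊) := by
    intro G hG
    have h1 : G0 ≤ G := hmin G hG
    rw [mem_Icc]
    refine ⟨h1, ?_⟩
    have h2 : ((G - G0 : ℕ) : ℝ) ≤ w / b := by
      rw [Nat.cast_sub h1, le_div_iff₀ hb0]
      have := (hT G hG).2
      have := (hT G0 hG0).1
      nlinarith
    have := Nat.le_floor h2
    omega
  have h3 := card_le_card hsub
  rw [Nat.card_Icc] at h3
  have h4 : T.card ≤ ⌊w / b⌋₊ + 1 := by omega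
  have h5 : (T.card : ℝ) ≤ (⌊w / b⌋₊ : ℝ) + 1 := by exact_mod_cast h4
  have h6 := Nat.floor_le (show 0 ≤ w / b by positivity)
  linarith

/-- Large primes with a multiple in each of two short intervals. -/
theorem geo (x y x2 y2 Q R W β ξ M : ℝ) (hx : 0 < x) (hy : 0 ≤ y) (hx2 : 0 < x2) (hy2 : 0 ≤ y2)
    (hQ : 0 < Q) (hQ2 : x2 + y2 ≤ Q ^ 2) (hR : 0 < R)
    (hξ : (x + y) / x2 - x / (x2 + y2) ≤ ξ) (hM : (x2 + y2) / Q ≤ M)
    (hW : y * (x2 + y2) / x ≤ W ∨ y2 ≤ W) (hβ : 1 / R ≤ β ∨ (x + y) / x2 ≤ β)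
    (S : Finset ℕ) (hS : ∀ q ∈ S, q.Prime ∧ Q ≤ q ∧ ∃ a m : ℕ, x ≤ ((a * q : ℕ) : ℝ) ∧
      ((a * q : ℕ) : ℝ) < x + y ∧ x2 ≤ ((m * q : ℕ) : ℝ) ∧ ((m * q : ℕ) : ℝ) < x2 + y2 ∧
      Rough R m ∧ ¬ m ∣ a) :
    (S.card : ℝ) ≤ ξ * M ^ 2 + 1 + W * (β + 2 * ξ * M) := by
  classical
  have hs2 : 0 < x2 + y2 := by linarith
  have hξ0 : 0 ≤ ξ := by
    refine le_trans ?_ hξ
    have : x / (x2 + y2) ≤ (x + y) / x2 := by
      rw [div_le_div_iff₀ hs2 hx2]; nlinarith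
    linarith
  have hM0 : 0 ≤ M := le_trans (by positivity) hM
  have hW0 : 0 ≤ W := by
    rcases hW with h | h
    · exact le_trans (by positivity) h
    · linarith
  have hβ0 : 0 ≤ β := by
    rcases hβ with h | h
    · exact le_trans (by positivity) h
    · exact le_trans (by positivity) h
  -- reduced data
  have hdata : ∀ q ∈ S, ∃ d : (ℕ × ℕ) × ℕ, q ∣ d.2 ∧ Nat.Coprime d.1.1 d.1.2 ∧ 1 ≤ d.1.1 ∧
      1 ≤ d.1.2 ∧ R < d.1.2 ∧ x ≤ (d.1.1 : ℝ) * d.2 ∧ (d.1.1 : ℝ) * d.2 < x + y ∧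
      x2 ≤ (d.1.2 : ℝ) * d.2 ∧ (d.1.2 : ℝ) * d.2 < x2 + y2 := by
    intro q hq
    obtain ⟨_, _, a, m, h1, h2, h3, h4, h5, h6⟩ := hS q hq
    have ha : a ≠ 0 := by rintro rfl; exact h6 (dvd_zero _)
    have hm : m ≠ 0 := by
      rintro rfl
      simp only [zero_mul, Nat.cast_zero] at h3
      linarith
    have hg : 0 < Nat.gcd a m := Nat.gcd_pos_of_pos_left _ (Nat.pos_of_ne_zero ha)
    obtain ⟨a', ha'⟩ := Nat.gcd_dvd_left a m
    obtain ⟨b', hb'⟩ := Nat.gcd_dvd_right a m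
    have hcop : Nat.Coprime a' b' := by
      have h := Nat.coprime_div_gcd_div_gcd (m := a) (n := m) hg
      have e1 : a / Nat.gcd a m = a' := Nat.div_eq_of_eq_mul_right hg ha'
      have e2 : m / Nat.gcd a m = b' := Nat.div_eq_of_eq_mul_right hg hb'
      rwa [e1, e2] at h
    have ha1 : 1 ≤ a' := by
      rcases Nat.eq_zero_or_pos a' with h | h
      · rw [h, mul_zero] at ha'; exact absurd ha' ha
      · exact h
    have hb1 : 1 ≤ b' := by
      rcases Nat.eq_zero_or_pos b' with h | h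
      · rw [h, mul_zero] at hb'; exact absurd hb' hm
      · exact h
    have hbne : b' ≠ 1 := by
      intro h
      rw [h, mul_one] at hb'
      exact h6 (hb' ▸ Nat.gcd_dvd_left a m)
    have hRb : R < b' := by
      have hp := Nat.minFac_prime hbne
      have hd : b'.minFac ∣ m := (Nat.minFac_dvd b').trans ⟨Nat.gcd a m, by rw [mul_comm]; exact hb'⟩
      have h7 := h5 _ hp hd
      have h8 : (b'.minFac : ℝ) ≤ b' := by exact_mod_cast Nat.minFac_le hb1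
      linarith
    have e1 : (a' : ℝ) * ((Nat.gcd a m * q : ℕ) : ℝ) = ((a * q : ℕ) : ℝ) := by
      have : a' * (Nat.gcd a m * q) = a * q := by
        conv_rhs => rw [ha']
        ring
      exact_mod_cast this
    have e2 : (b' : ℝ) * ((Nat.gcd a m * q : ℕ) : ℝ) = ((m * q : ℕ) : ℝ) := by
      have : b' * (Nat.gcd a m * q) = m * q := by
        conv_rhs => rw [hb']
        ring
      exact_mod_cast this
    refine ⟨((a', b'), Nat.gcd a m * q), Dvd.intro_left _ rfl, hcop, ha1, hb1, hRb, ?_, ?_, ?_, ?_⟩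
    · simp only; rw [e1]; exact h1
    · simp only; rw [e1]; exact h2
    · simp only; rw [e2]; exact h3
    · simp only; rw [e2]; exact h4
  choose! d hd using hdata
  have hGpos : ∀ q ∈ S, 0 < (d q).2 := by
    intro q hq
    obtain ⟨_, _, _, _, _, h1, _⟩ := hd q hq
    rcases Nat.eq_zero_or_pos (d q).2 with h | h
    · rw [h] at h1; simp at h1; linarith
    · exact h
  have hGQ : ∀ q ∈ S, Q ≤ ((d q).2 : ℝ) := by
    intro q hq
    have h1 : q ≤ (d q).2 := Nat.le_of_dvd (hGpos q hq) (hd q hq).1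
    have h2 : (q : ℝ) ≤ (d q).2 := by exact_mod_cast h1
    exact (hS q hq).2.1.trans h2
  have hinj : Set.InjOn d S := by
    intro q hq q' hq' heq
    by_contra hne
    have hq1 : q ∈ S := by simpa using hq
    have hq2 : q' ∈ S := by simpa using hq'
    have hc : Nat.Coprime q q' := (Nat.coprime_primes (hS q hq1).1 (hS q' hq2).1).2 hne
    have h1 : q * q' ∣ (d q).2 :=
      Nat.Coprime.mul_dvd_of_dvd_of_dvd hc (hd q hq1).1 (heq ▸ (hd q' hq2).1)
    have h2 : q * q' ≤ (d q).2 := Nat.le_of_dvd (hGpos q hq1) h1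
    have h3 : (q : ℝ) * q' ≤ (d q).2 := by exact_mod_cast h2
    obtain ⟨_, _, _, hb, _, _, _, _, h4⟩ := hd q hq1
    have hb' : (1 : ℝ) ≤ (d q).1.2 := by exact_mod_cast hb
    have h5 := (hS q hq1).2.1
    have h6 := (hS q' hq2).2.1
    have h7 : (0 : ℝ) ≤ (d q).2 := by positivity
    nlinarith
  set D := S.image d with hD
  have hcard : S.card = D.card := (card_image_of_injOn hinj).symm
  set P := D.image Prod.fst with hP
  have hPfacts : ∀ p ∈ P, Nat.Coprime p.1 p.2 ∧ 1 ≤ p.1 ∧ 1 ≤ p.2 ∧ p.2 ≤ ⌊M⌋₊ ∧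
      x / (x2 + y2) ≤ (p.1 : ℝ) / p.2 ∧ (p.1 : ℝ) / p.2 ≤ x / (x2 + y2) + ξ ∧
      1 / (p.2 : ℝ) ≤ β := by
    intro p hp
    simp only [hP, hD, mem_image] at hp
    obtain ⟨_, ⟨q, hq, rfl⟩, rfl⟩ := hp
    obtain ⟨_, hc, ha, hb, hRb, h1, h2, h3, h4⟩ := hd q hq
    have hG := hGQ q hq
    have ha' : (1 : ℝ) ≤ (d q).1.1 := by exact_mod_cast ha
    have hb' : (1 : ℝ) ≤ (d q).1.2 := by exact_mod_cast hb
    have hG0 : (0 : ℝ) < (d q).2 := lt_of_lt_of_le hQ hG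
    have hup : ((d q).1.1 : ℝ) / (d q).1.2 ≤ (x + y) / x2 := by
      rw [div_le_div_iff₀ (by linarith) hx2]
      have : ((d q).1.1 : ℝ) * x2 * (d q).2 ≤ (x + y) * (d q).1.2 * (d q).2 := by nlinarith
      exact le_of_mul_le_mul_right this hG0
    refine ⟨hc, ha, hb, ?_, ?_, ?_, ?_⟩
    · apply Nat.le_floor
      refine le_trans ?_ hM
      rw [le_div_iff₀ hQ]
      nlinarith
    · rw [div_le_div_iff₀ hs2 (by linarith)]
      have : x * (d q).1.2 * (d q).2 ≤ ((d q).1.1 : ℝ) * (x2 + y2) * (d q).2 := by nlinarith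
      exact le_of_mul_le_mul_right this hG0
    · linarith
    · rcases hβ with h | h
      · exact le_trans (one_div_le_one_div_of_le hR hRb.le) h
      · refine le_trans ?_ (hup.trans h)
        exact div_le_div_of_nonneg_right ha' (by linarith)
  have hfib : ∀ p ∈ P, ((D.filter (fun e => e.1 = p)).card : ℝ) ≤ 1 + W * (1 / (p.2 : ℝ)) := by
    intro p hp
    obtain ⟨_, ha, hb, _, hl, _, _⟩ := hPfacts p hp
    have ha' : (0 : ℝ) < p.1 := by exact_mod_cast ha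
    have hb' : (0 : ℝ) < p.2 := by exact_mod_cast hb
    have hc : (D.filter (fun e => e.1 = p)).card = ((D.filter (fun e => e.1 = p)).image Prod.snd).card := by
      refine (card_image_of_injOn ?_).symm
      intro e he e' he' h
      simp only [coe_filter, Set.mem_setOf_eq] at he he'
      exact Prod.ext (he.2.trans he'.2.symm) h
    rw [hc]
    have hT : ∀ G ∈ (D.filter (fun e => e.1 = p)).image Prod.snd, (x ≤ (p.1 : ℝ) * G ∧
        (p.1 : ℝ) * G < x + y) ∧ (x2 ≤ (p.2 : ℝ) * G ∧ (p.2 : ℝ) * G < x2 + y2) := by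
      intro G hG
      simp only [hD, mem_image, mem_filter] at hG
      obtain ⟨_, ⟨⟨q, hq, rfl⟩, rfl⟩, rfl⟩ := hG
      obtain ⟨_, _, _, _, _, h1, h2, h3, h4⟩ := hd q hq
      exact ⟨⟨h1, h2⟩, h3, h4⟩
    rcases hW with h | h
    · refine (card_mul_mem _ p.1 ha x y hy (fun G hG => (hT G hG).1)).trans ?_
      have h1 : y / p.1 ≤ y * (x2 + y2) / x * (1 / (p.2 : ℝ)) := by
        rw [div_le_div_iff₀ hs2 hb'] at hl
        rw [div_mul_div_comm, mul_one, div_le_div_iff₀ ha' (by positivity)]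
        nlinarith
      have h2 := mul_le_mul_of_nonneg_right h (show 0 ≤ 1 / (p.2 : ℝ) by positivity)
      linarith
    · refine (card_mul_mem _ p.2 hb x2 y2 hy2 (fun G hG => (hT G hG).2)).trans ?_
      have h2 := mul_le_mul_of_nonneg_right h (show 0 ≤ 1 / (p.2 : ℝ) by positivity)
      rw [mul_one_div] at h2
      linarith
  have hsum : (D.card : ℝ) = ∑ p ∈ P, ((D.filter (fun e => e.1 = p)).card : ℝ) := by
    rw [card_eq_sum_card_image Prod.fst D]; push_cast; rfl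
  have hfl : (⌊M⌋₊ : ℝ) ≤ M := Nat.floor_le hM0
  have hPc : (P.card : ℝ) ≤ ξ * M ^ 2 + 1 := by
    have h1 := farey_card P (x / (x2 + y2)) ξ hξ0 ⌊M⌋₊ (fun p hp => by
      obtain ⟨c, _, b, t, l, u, _⟩ := hPfacts p hp
      exact ⟨c, b, t, l, u⟩)
    have h2 : (⌊M⌋₊ : ℝ) ^ 2 ≤ M ^ 2 := by gcongr
    nlinarith
  have hinv : ∑ p ∈ P, 1 / (p.2 : ℝ) ≤ β + 2 * ξ * M := by
    have h1 := abel_inv P Prod.snd ξ β hξ0 hβ0 ⌊M⌋₊ (fun p hp => by
      obtain ⟨_, _, b, t, _, _, u⟩ := hPfacts p hp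
      exact ⟨b, t, u⟩) (fun t => farey_card _ (x / (x2 + y2)) ξ hξ0 t (fun p hp => by
      rw [mem_filter] at hp
      obtain ⟨c, _, b, _, l, u, _⟩ := hPfacts p hp.1
      exact ⟨c, b, hp.2, l, u⟩))
    have h2 : 2 * ξ * (⌊M⌋₊ : ℝ) ≤ 2 * ξ * M := by gcongr
    linarith
  rw [hcard, hsum]
  calc ∑ p ∈ P, ((D.filter (fun e => e.1 = p)).card : ℝ)
      ≤ ∑ p ∈ P, (1 + W * (1 / (p.2 : ℝ))) := sum_le_sum hfib
    _ = P.card + W * ∑ p ∈ P, 1 / (p.2 : ℝ) := by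
        rw [sum_add_distrib, sum_const, nsmul_eq_mul, mul_one, mul_sum]
    _ ≤ _ := by
        have := mul_le_mul_of_nonneg_left hinv hW0
        linarith

end Pool.Agent.H293Z.MO
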