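import Mathlib
import Pool.Agent.H392Z.MO.Spec
import Pool.Agent.H293Z.MO.Geo

set_option autoImplicit false

open Finset Filter

namespace Pool.Agent.H293Z.MO

open Pool.Agent.H392Z.MO

theorem succ_rpow_le (A u : ℝ) (hA0 : 0 ≤ A) (hA : A ≤ 2) (hu : 1 ≤ u) :
    (u + 1) ^ A ≤ u ^ A + 3 * (u ^ A / u) := by
  have hu0 : 0 < u := by linarith
  have h1 : u + 1 = u * (1 + 1 / u) := by field_simp
  have h2 : (1 : ℝ) ≤ 1 + 1 / u := by have : 0 < 1 / u := by positivity
                                      linarith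
  have h3 : (1 + 1 / u) ^ A ≤ (1 + 1 / u) ^ (2 : ℝ) := Real.rpow_le_rpow_of_exponent_le h2 hA
  have h4 : (1 + 1 / u) ^ (2 : ℝ) ≤ 1 + 3 / u := by
    rw [Real.rpow_two]
    have h5 : 1 / u ≤ 1 := by rw [div_le_one hu0]; exact hu
    have h6 : 0 < 1 / u := by positivity
    have h7 : 3 / u = 3 * (1 / u) := by ring
    rw [h7]; nlinarith
  rw [h1, Real.mul_rpow hu0.le (by linarith)]
  have h8 : 0 < u ^ A := Real.rpow_pos_of_pos hu0 _
  calc u ^ A * (1 + 1 / u) ^ A ≤ u ^ A * (1 + 3 / u) :=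
        mul_le_mul_of_nonneg_left (h3.trans h4) h8.le
    _ = _ := by ring

theorem mem_B {A : ℝ} {i n : ℕ} (h : n ∈ B A i) : (i : ℝ) ^ A ≤ n ∧ (n : ℝ) < ((i : ℝ) + 1) ^ A := by
  unfold B tt at h
  rw [mem_Ico, Nat.ceil_le, Nat.lt_ceil] at h
  refine ⟨h.1, ?_⟩
  have := h.2
  push_cast at this
  exact this

theorem HH_eq {A : ℝ} {i : ℕ} (hi : 1 ≤ i) : HH A i = (i : ℝ) ^ A / i := by
  have h0 : (0 : ℝ) < i := by exact_mod_cast hi
  unfold HH
  rw [Real.rpow_sub h0, Real.rpow_one]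

/-- A prime in a block of index at least `kk κ c` is large. -/
theorem large_of_kk {A κ : ℝ} (hA1 : 1 ≤ A) (hA : A ≤ 2) (hκ : 0 ≤ κ) {c q : ℕ} (hc : 1 ≤ c)
    (h : kk κ c ≤ blk A q) : (c : ℝ) ^ (A / 2) * (c : ℝ) ^ (A * κ) / 4 ≤ q := by
  have hc1 : (1 : ℝ) ≤ c := by exact_mod_cast hc
  have hc0 : (0 : ℝ) < c := by linarith
  unfold kk blk at h
  have h1 : (1 : ℝ) ≤ (c : ℝ) ^ (1 / 2 + κ) := Real.one_le_rpow hc1 (by linarith)
  have h2 : (c : ℝ) ^ (1 / 2 + κ) / 2 ≤ (⌊(c : ℝ) ^ (1 / 2 + κ)⌋₊ : ℝ) := by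
    have h3 := Nat.lt_floor_add_one ((c : ℝ) ^ (1 / 2 + κ))
    have h4 : (1 : ℝ) ≤ (⌊(c : ℝ) ^ (1 / 2 + κ)⌋₊ : ℝ) := by
      exact_mod_cast Nat.le_floor (by simpa using h1)
    linarith
  have h5 : (⌊(c : ℝ) ^ (1 / 2 + κ)⌋₊ : ℝ) ≤ (q : ℝ) ^ (1 / A) :=
    le_trans (by exact_mod_cast h) (Nat.floor_le (by positivity))
  have h6 : ((c : ℝ) ^ (1 / 2 + κ) / 2) ^ A ≤ ((q : ℝ) ^ (1 / A)) ^ A :=
    Real.rpow_le_rpow (by positivity) (h2.trans h5) (by linarith)
  rw [← Real.rpow_mul (by positivity), one_div_mul_cancel (by linarith), Real.rpow_one,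
    Real.div_rpow (by positivity) (by norm_num), ← Real.rpow_mul hc0.le] at h6
  refine le_trans ?_ h6
  rw [← Real.rpow_add hc0, show A / 2 + A * κ = (1 / 2 + κ) * A by ring]
  have h7 : (2 : ℝ) ^ A ≤ 4 := by
    calc (2 : ℝ) ^ A ≤ (2 : ℝ) ^ (2 : ℝ) := Real.rpow_le_rpow_of_exponent_le (by norm_num) hA
      _ = 4 := by rw [Real.rpow_two]; norm_num
  exact div_le_div_of_nonneg_left (by positivity) (by positivity) h7

theorem frac_alg (u v a s k r T : ℝ) (hu : 0 < u) (hv : 0 < v) (ha : 0 < a) (hs : 0 < s)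
    (hk : 0 < k) (hr : 0 < r) (hsv : s ≤ v)
    (hT : 12 * s ^ 2 / (u * r) ≤ T ∨ 3 * s ^ 2 / (v * r) ≤ T ∨ 12 * a / v ≤ T) :
    3 * (a / s ^ 2) * (1 / u + 1 / v) * (16 * s / k) ^ 2 + 1 +
      min (12 * s ^ 2 / u) (3 * (s ^ 2 / v)) * (min (1 / r) (4 * a / s ^ 2) +
        2 * (3 * (a / s ^ 2) * (1 / u + 1 / v)) * (16 * s / k)) ≤
      1 + 768 * (a / u) * (1 + u / v) / k ^ 2 + 1440 * (a / u) / k + T := by
  set W := min (12 * s ^ 2 / u) (3 * (s ^ 2 / v)) with hW
  set β := min (1 / r) (4 * a / s ^ 2) with hβ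
  have hW1 : W ≤ 12 * s ^ 2 / u := min_le_left _ _
  have hW2 : W ≤ 3 * (s ^ 2 / v) := min_le_right _ _
  have hW0 : 0 ≤ W := le_min (by positivity) (by positivity)
  have hβ1 : β ≤ 1 / r := min_le_left _ _
  have hβ2 : β ≤ 4 * a / s ^ 2 := min_le_right _ _
  have hβ0 : 0 ≤ β := le_min (by positivity) (by positivity)
  have e1 : 3 * (a / s ^ 2) * (1 / u + 1 / v) * (16 * s / k) ^ 2 =
      768 * (a / u) * (1 + u / v) / k ^ 2 := by field_simp; ring
  have e2 : W * β ≤ T := by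
    rcases hT with h | h | h
    · refine le_trans ?_ h
      calc W * β ≤ (12 * s ^ 2 / u) * (1 / r) := mul_le_mul hW1 hβ1 hβ0 (by positivity)
        _ = _ := by field_simp
    · refine le_trans ?_ h
      calc W * β ≤ (3 * (s ^ 2 / v)) * (1 / r) := mul_le_mul hW2 hβ1 hβ0 (by positivity)
        _ = _ := by field_simp
    · refine le_trans ?_ h
      calc W * β ≤ (3 * (s ^ 2 / v)) * (4 * a / s ^ 2) := mul_le_mul hW2 hβ2 hβ0 (by positivity)
        _ = _ := by field_simp; ring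
  have e3 : W * (2 * (3 * (a / s ^ 2) * (1 / u + 1 / v)) * (16 * s / k)) ≤ 1440 * (a / u) / k := by
    have h1 : W * (1 / u) ≤ 3 * (s ^ 2 / v) * (1 / u) :=
      mul_le_mul_of_nonneg_right hW2 (by positivity)
    have h2 : W * (1 / v) ≤ 12 * s ^ 2 / u * (1 / v) :=
      mul_le_mul_of_nonneg_right hW1 (by positivity)
    calc W * (2 * (3 * (a / s ^ 2) * (1 / u + 1 / v)) * (16 * s / k))
        = (W * (1 / u) + W * (1 / v)) * (96 * (a / s ^ 2) * (s / k)) := by ring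
      _ ≤ (3 * (s ^ 2 / v) * (1 / u) + 12 * s ^ 2 / u * (1 / v)) * (96 * (a / s ^ 2) * (s / k)) :=
          mul_le_mul_of_nonneg_right (by linarith) (by positivity)
      _ = 1440 * (a / u) / k * (s / v) := by field_simp; ring
      _ ≤ 1440 * (a / u) / k := by
          apply mul_le_of_le_one_right (by positivity)
          rw [div_le_one hv]; exact hsv
  rw [e1, mul_add W]
  linarith

theorem frac_core {A κ σ : ℝ} (hA1 : 1 ≤ A) (hA : A ≤ 2) (hκ : 0 ≤ κ) {i c : ℕ} (hi : 1 ≤ i)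
    (hc : 1 ≤ c) (hk : 8 ≤ (c : ℝ) ^ (A * κ)) (T : ℝ)
    (hT : 12 * (c : ℝ) ^ A / (i * (c : ℝ) ^ (A * σ)) ≤ T ∨
      3 * (c : ℝ) ^ A / (c * (c : ℝ) ^ (A * σ)) ≤ T ∨ 12 * (i : ℝ) ^ A / c ≤ T) :
    ((Fset A κ σ i c).card : ℝ) ≤ 1 + 768 * HH A i * (1 + (i : ℝ) / c) / ((c : ℝ) ^ (A * κ)) ^ 2 +
      1440 * HH A i / (c : ℝ) ^ (A * κ) + T := by
  classical
  have hu : (1 : ℝ) ≤ i := by exact_mod_cast hi
  have hv : (1 : ℝ) ≤ c := by exact_mod_cast hc
  set u : ℝ := (i : ℝ) with hudef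
  set v : ℝ := (c : ℝ) with hvdef
  have hu0 : 0 < u := by linarith
  have hv0 : 0 < v := by linarith
  set a := u ^ A with ha
  set s := v ^ (A / 2) with hs
  set k := v ^ (A * κ) with hkdef
  set r := v ^ (A * σ) with hr
  have ha0 : 0 < a := Real.rpow_pos_of_pos hu0 _
  have hs0 : 0 < s := Real.rpow_pos_of_pos hv0 _
  have hk0 : 0 < k := Real.rpow_pos_of_pos hv0 _
  have hr0 : 0 < r := Real.rpow_pos_of_pos hv0 _
  have hb : v ^ A = s ^ 2 := by
    rw [hs, ← Real.rpow_two, ← Real.rpow_mul hv0.le]; congr 1; ring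
  have hsv : s ≤ v := by
    calc s ≤ v ^ (1 : ℝ) := Real.rpow_le_rpow_of_exponent_le hv (by linarith)
      _ = v := Real.rpow_one v
  have h1 := succ_rpow_le A u (by linarith) hA hu
  have h2 := succ_rpow_le A v (by linarith) hA hv
  rw [hb] at h2 hT
  have hsv2 : s ^ 2 / v ≤ s ^ 2 := div_le_self (by positivity) hv
  have hau : a / u ≤ a := div_le_self ha0.le hu
  have hg := geo a (3 * (a / u)) (s ^ 2) (3 * (s ^ 2 / v)) (s * k / 4) r
    (min (12 * s ^ 2 / u) (3 * (s ^ 2 / v))) (min (1 / r) (4 * a / s ^ 2))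
    (3 * (a / s ^ 2) * (1 / u + 1 / v)) (16 * s / k) ha0 (by positivity) (by positivity)
    (by positivity) (by positivity) ?_ hr0 ?_ ?_ ?_ ?_ (Fset A κ σ i c) ?_
  · rw [HH_eq hi]
    exact hg.trans (frac_alg u v a s k r T hu0 hv0 ha0 hs0 hk0 hr0 hsv hT)
  · have h3 : (s * k / 4) ^ 2 = s ^ 2 * (k ^ 2 / 16) := by ring
    have h4 : 4 ≤ k ^ 2 / 16 := by nlinarith
    rw [h3]
    nlinarith [sq_nonneg s]
  · have h3 : a / (s ^ 2 + 3 * (s ^ 2 / v)) = a / s ^ 2 - a / s ^ 2 * (3 / (v + 3)) := by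
      field_simp; ring
    have h4 : 3 / (v + 3) ≤ 3 / v := div_le_div_of_nonneg_left (by norm_num) hv0 (by linarith)
    have h5 := mul_le_mul_of_nonneg_left h4 (show 0 ≤ a / s ^ 2 by positivity)
    have h6 : (a + 3 * (a / u)) / s ^ 2 = a / s ^ 2 + 3 * (a / s ^ 2) * (1 / u) := by
      field_simp
    have h7 : a / s ^ 2 * (3 / v) = 3 * (a / s ^ 2) * (1 / v) := by ring
    rw [h3, h6, mul_add (3 * (a / s ^ 2))]
    linarith
  · rw [div_le_iff₀ (by positivity)]
    have : 16 * s / k * (s * k / 4) = 4 * s ^ 2 := by field_simp; ring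
    rw [this]; linarith
  · rcases le_total (12 * s ^ 2 / u) (3 * (s ^ 2 / v)) with h | h
    · left
      rw [min_eq_left h, div_le_iff₀ ha0]
      have h3 : 12 * s ^ 2 / u * a = 3 * (a / u) * (4 * s ^ 2) := by ring
      rw [h3]
      exact mul_le_mul_of_nonneg_left (by linarith) (by positivity)
    · right; rw [min_eq_right h]
  · rcases le_total (1 / r) (4 * a / s ^ 2) with h | h
    · left; rw [min_eq_left h]
    · right
      rw [min_eq_right h]
      exact div_le_div_of_nonneg_right (by linarith) (by positivity)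
  · intro q hq
    unfold Fset at hq
    rw [mem_filter] at hq
    obtain ⟨_, hp, hkk, a', m, h3, h4, h5, h6⟩ := hq
    refine ⟨hp, large_of_kk hA1 hA hκ hc hkk, a', m, (mem_B h3).1, (mem_B h3).2.trans_le h1, ?_,
      (mem_B h4).2.trans_le h2, ?_, h6⟩
    · rw [← hb]; exact (mem_B h4).1
    · have : tt A c ^ σ = r := by
        unfold tt
        rw [hr, Real.rpow_mul hv0.le]
      rwa [this] at h5

theorem Fset_zero (A κ σ : ℝ) (c : ℕ) : Fset A κ σ 0 c = ∅ := by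
  classical
  unfold Fset
  refine filter_eq_empty_iff.2 ?_
  rintro q _ ⟨hp, _, a, m, h1, _, _, h4⟩
  have h5 := (mem_B h1).2
  simp only [Nat.cast_zero, zero_add, Real.one_rpow] at h5
  have h6 : a * q < 1 := by exact_mod_cast h5
  have h7 : a = 0 := by
    have := hp.pos
    rcases Nat.eq_zero_or_pos a with h | h
    · exact h
    · nlinarith
  exact h4 (h7 ▸ dvd_zero m)

theorem frac : S_Frac := by
  intro A κ σ hσ hσκ hκ hA1 hA2
  have hA : 199 / 100 ≤ A := by linarith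
  have hκ0 : 0 < κ := by linarith
  have hev : ∀ᶠ n : ℕ in atTop, (3000 : ℝ) ≤ (n : ℝ) ^ (σ / 4) :=
    ((tendsto_rpow_atTop (by positivity : 0 < σ / 4)).comp
      tendsto_natCast_atTop_atTop).eventually_ge_atTop 3000
  obtain ⟨i₀, hi₀⟩ := eventually_atTop.1 (hev.and (eventually_ge_atTop 1))
  have fin : ∀ (n : ℕ) (Z : ℝ), i₀ ≤ n → Z ≤ 3000 * HH A n / (n : ℝ) ^ (σ / 2) →
      Z ≤ HH A n * (n : ℝ) ^ (-(σ / 4)) := by
    intro n Z hn hZ
    obtain ⟨h1, h2⟩ := hi₀ n hn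
    have hn0 : (0 : ℝ) < n := by exact_mod_cast h2
    have hH : 0 ≤ HH A n := by unfold HH; positivity
    refine hZ.trans ?_
    have e : (n : ℝ) ^ (σ / 2) = (n : ℝ) ^ (σ / 4) * (n : ℝ) ^ (σ / 4) := by
      rw [← Real.rpow_add hn0]; congr 1; ring
    rw [Real.rpow_neg hn0.le, e, div_le_iff₀ (by positivity)]
    have h3 : HH A n * ((n : ℝ) ^ (σ / 4))⁻¹ * ((n : ℝ) ^ (σ / 4) * (n : ℝ) ^ (σ / 4)) =
        (n : ℝ) ^ (σ / 4) * HH A n := by field_simp
    rw [h3]
    exact mul_le_mul_of_nonneg_right h1 hH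
  have comb : ∀ (H H' e k w T Z : ℝ), 0 ≤ H' → H' ≤ H → 1 ≤ e → e ≤ H → e ≤ k → 0 ≤ w → w ≤ k →
      T ≤ 12 * H / e → Z ≤ 1 + 768 * H' * (1 + w) / k ^ 2 + 1440 * H' / k + T →
      Z ≤ 3000 * H / e := by
    intro H H' e k w T Z h0 h1 h2 h3 h4 h5 h6 h7 h8
    have he : 0 < e := by linarith
    have hk : 0 < k := by linarith
    have hH : 0 ≤ H := by linarith
    have a1 : 1 ≤ H / e := by rw [le_div_iff₀ he]; linarith
    have a2 : H' / k ≤ H / e := by gcongr
    have a3 : 768 * H' * (1 + w) / k ^ 2 ≤ 1536 * (H' / k) := by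
      have : 768 * H' * (1 + w) / k ^ 2 = 768 * (H' / k) * ((1 + w) / k) := by field_simp
      rw [this]
      have h9 : (1 + w) / k ≤ 2 := by rw [div_le_iff₀ hk]; linarith
      have h10 : 0 ≤ H' / k := by positivity
      nlinarith
    have a4 : 1440 * H' / k = 1440 * (H' / k) := by ring
    have a5 : 12 * H / e = 12 * (H / e) := by ring
    have a6 : 3000 * H / e = 3000 * (H / e) := by ring
    rw [a6]; rw [a4] at h8; rw [a5] at h7
    linarith
  refine ⟨i₀, ?_, ?_⟩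
  · intro i c hi hc
    obtain ⟨h1, h2⟩ := hi₀ i hi
    have hu : (1 : ℝ) ≤ i := by exact_mod_cast h2
    have hu0 : (0 : ℝ) < i := by linarith
    have hv : (1 : ℝ) ≤ c := le_trans (Real.one_le_rpow hu (by linarith)) hc
    have hv0 : (0 : ℝ) < c := by linarith
    have hc1 : 1 ≤ c := by exact_mod_cast hv
    have hpow : ∀ t : ℝ, 0 ≤ t → (i : ℝ) ^ t ≤ (c : ℝ) ^ (A * t) := by
      intro t ht
      calc (i : ℝ) ^ t ≤ (i : ℝ) ^ ((1 - κ / 2) * (A * t)) := by
            apply Real.rpow_le_rpow_of_exponent_le hu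
            have : 1 ≤ (1 - κ / 2) * A := by nlinarith
            nlinarith
        _ = ((i : ℝ) ^ (1 - κ / 2)) ^ (A * t) := Real.rpow_mul hu0.le _ _
        _ ≤ _ := Real.rpow_le_rpow (by positivity) hc (by positivity)
    set e := (i : ℝ) ^ (σ / 2) with he
    have he1 : 1 ≤ e := Real.one_le_rpow hu (by positivity)
    have hek : e ≤ (c : ℝ) ^ (A * κ) :=
      le_trans (Real.rpow_le_rpow_of_exponent_le hu (by linarith)) (hpow κ hκ0.le)
    have he2 : e * e ≤ (c : ℝ) ^ (A * σ) := by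
      rw [he, ← Real.rpow_add hu0, add_halves]; exact hpow σ hσ.le
    have h8 : 8 ≤ (c : ℝ) ^ (A * κ) := by
      have : (i : ℝ) ^ (σ / 4) ≤ e := Real.rpow_le_rpow_of_exponent_le hu (by linarith)
      linarith
    have hH : 0 < HH A i := by unfold HH; positivity
    apply fin i _ hi
    refine comb (HH A i) (HH A i) e ((c : ℝ) ^ (A * κ)) ((i : ℝ) / c) (12 * HH A i / e) _ hH.le
      le_rfl he1 ?_ hek (by positivity) ?_ le_rfl
      (frac_core (by linarith) hA2.le hκ0.le h2 hc1 h8 _ ?_)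
    · unfold HH
      exact Real.rpow_le_rpow_of_exponent_le hu (by linarith)
    · rw [div_le_iff₀ hv0]
      have h3 : (i : ℝ) = (i : ℝ) ^ (κ / 2) * (i : ℝ) ^ (1 - κ / 2) := by
        rw [← Real.rpow_add hu0]; simp
      have h4 : (i : ℝ) ^ (κ / 2) ≤ (c : ℝ) ^ (A * κ) :=
        le_trans (Real.rpow_le_rpow_of_exponent_le hu (by linarith)) (hpow κ hκ0.le)
      calc (i : ℝ) = (i : ℝ) ^ (κ / 2) * (i : ℝ) ^ (1 - κ / 2) := h3
        _ ≤ _ := mul_le_mul h4 hc (by positivity) (by positivity)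
    · have hr0 : 0 < (c : ℝ) ^ (A * σ) := by positivity
      rcases le_total (c : ℝ) i with h | h
      · left
        rw [HH_eq h2]
        have h3 : (c : ℝ) ^ A ≤ (i : ℝ) ^ A := Real.rpow_le_rpow hv0.le h (by linarith)
        have h4 : e ≤ (c : ℝ) ^ (A * σ) := by nlinarith
        calc 12 * (c : ℝ) ^ A / (i * (c : ℝ) ^ (A * σ)) ≤ 12 * (i : ℝ) ^ A / (i * e) := by gcongr
          _ = _ := by field_simp
      · rcases le_total (c : ℝ) (i * e) with h' | h'
        · right; left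
          have h3 : (c : ℝ) ^ A / c ≤ HH A i * e := by
            rw [← HH_eq hc1]
            unfold HH
            calc (c : ℝ) ^ (A - 1) ≤ ((i : ℝ) * e) ^ (A - 1) :=
                  Real.rpow_le_rpow hv0.le h' (by linarith)
              _ = (i : ℝ) ^ (A - 1) * e ^ (A - 1) := Real.mul_rpow hu0.le (by linarith)
              _ ≤ (i : ℝ) ^ (A - 1) * e ^ (1 : ℝ) := by
                  apply mul_le_mul_of_nonneg_left _ (by positivity)
                  exact Real.rpow_le_rpow_of_exponent_le he1 (by linarith)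
              _ = _ := by rw [Real.rpow_one]
          calc 3 * (c : ℝ) ^ A / (c * (c : ℝ) ^ (A * σ))
              = 3 * ((c : ℝ) ^ A / c) / (c : ℝ) ^ (A * σ) := by field_simp
            _ ≤ 3 * (HH A i * e) / (e * e) := by gcongr
            _ = 3 * HH A i / e := by field_simp
            _ ≤ _ := by gcongr; norm_num
        · right; right
          rw [HH_eq h2]
          calc 12 * (i : ℝ) ^ A / c ≤ 12 * (i : ℝ) ^ A / (i * e) := by gcongr
            _ = _ := by field_simp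
  · intro i c hc hic
    obtain ⟨h1, h2⟩ := hi₀ c hc
    have hv : (1 : ℝ) ≤ c := by exact_mod_cast h2
    have hv0 : (0 : ℝ) < c := by linarith
    have hH : 0 < HH A c := by unfold HH; positivity
    rcases Nat.eq_zero_or_pos i with rfl | hi
    · rw [Fset_zero A κ σ]
      simp only [card_empty, Nat.cast_zero]
      positivity
    have hu : (1 : ℝ) ≤ i := by exact_mod_cast hi
    have huv : (i : ℝ) ≤ c := by exact_mod_cast hic.le
    set e := (c : ℝ) ^ (σ / 2) with he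
    have he1 : 1 ≤ e := Real.one_le_rpow hv (by positivity)
    have hek : e ≤ (c : ℝ) ^ (A * κ) := Real.rpow_le_rpow_of_exponent_le hv (by nlinarith)
    have her : e ≤ (c : ℝ) ^ (A * σ) := Real.rpow_le_rpow_of_exponent_le hv (by nlinarith)
    have h8 : 8 ≤ (c : ℝ) ^ (A * κ) := by
      have : (c : ℝ) ^ (σ / 4) ≤ e := Real.rpow_le_rpow_of_exponent_le hv (by linarith)
      linarith
    apply fin c _ hc
    refine comb (HH A c) (HH A i) e ((c : ℝ) ^ (A * κ)) ((i : ℝ) / c) (12 * HH A c / e) _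
      (by unfold HH; positivity) ?_ he1 ?_ hek (by positivity) ?_ le_rfl
      (frac_core (by linarith) hA2.le hκ0.le hi h2 h8 _ ?_)
    · unfold HH
      exact Real.rpow_le_rpow (by linarith) huv (by linarith)
    · unfold HH
      exact Real.rpow_le_rpow_of_exponent_le hv (by linarith)
    · have : (i : ℝ) / c ≤ 1 := by rw [div_le_one hv0]; exact huv
      linarith
    · right; left
      rw [HH_eq h2]
      calc 3 * (c : ℝ) ^ A / (c * (c : ℝ) ^ (A * σ)) ≤ 12 * (c : ℝ) ^ A / (c * e) := by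
            gcongr; norm_num
        _ = _ := by field_simp

end Pool.Agent.H293Z.MO
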