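import Mathlib
import Pool.Agent.H392Z.MO.Spec
import Pool.Agent.H293Z.MO.Sub
import Pool.Agent.H293Z.MO.Frac

set_option autoImplicit false

open Finset Filter

namespace Pool.Agent.H293Z.MO

open Pool.Agent.H392Z.MO

theorem PF_spec {n : ℕ} (hn : n ≠ 0) {q : ℕ} (hq : q.Prime) (hqn : q ∣ n) :
    (PF n).Prime ∧ PF n ∣ n ∧ q ≤ PF n := by
  have hmem : q ∈ n.primeFactors := Nat.mem_primeFactors.2 ⟨hq, hqn, hn⟩
  obtain ⟨p, hp, he⟩ := Finset.exists_mem_eq_sup n.primeFactors ⟨q, hmem⟩ id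
  have h1 : PF n = p := he
  refine ⟨h1 ▸ (Nat.mem_primeFactors.1 hp).1, h1 ▸ (Nat.mem_primeFactors.1 hp).2.1, ?_⟩
  exact Finset.le_sup (f := id) hmem

theorem Ival_sub {A : ℝ} (hA : 1 ≤ A) {i : ℕ} (hi : 1 ≤ i) : Ival (tt A i) (HH A i) ⊆ B A i := by
  unfold Ival B
  apply Ico_subset_Ico le_rfl
  apply Nat.ceil_le_ceil
  have hu : (1 : ℝ) ≤ i := by exact_mod_cast hi
  have hu0 : (0 : ℝ) < i := by linarith
  rw [HH_eq hi]
  unfold tt
  push_cast
  have h1 : (i : ℝ) + 1 = i * (1 + 1 / i) := by field_simp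
  have h2 : (1 : ℝ) ≤ 1 + 1 / i := by have : 0 < 1 / (i : ℝ) := by positivity
                                      linarith
  have h3 : (1 + 1 / (i : ℝ)) ^ (1 : ℝ) ≤ (1 + 1 / (i : ℝ)) ^ A :=
    Real.rpow_le_rpow_of_exponent_le h2 hA
  rw [Real.rpow_one] at h3
  rw [h1, Real.mul_rpow hu0.le (by linarith)]
  have h8 : 0 < (i : ℝ) ^ A := Real.rpow_pos_of_pos hu0 _
  calc (i : ℝ) ^ A + (i : ℝ) ^ A / i = (i : ℝ) ^ A * (1 + 1 / i) := by ring
    _ ≤ _ := mul_le_mul_of_nonneg_left h3 h8.le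

open Classical in
theorem hand_card {A σ : ℝ} (hσ : 0 < σ) (hA1 : 1 ≤ A) (hA2 : A ≤ 2) (M : Set ℕ) {i : ℕ}
    (hi : 1 ≤ i) :
    ((Ival (tt A i) (HH A i)).filter (fun n => Rough (tt A i ^ σ) n ∧
      ∃ q : ℕ, q.Prime ∧ q ∣ n ∧ tt A i ^ (1 / 2 + σ) ≤ (q : ℝ))).card ≤
      (Hand A σ σ M i).card +
        ∑ c ∈ (range (i + 1)).filter (fun c => c ∈ M), if c < i then (Fset A σ σ c i).card else 0 := by
  set S := (Ival (tt A i) (HH A i)).filter (fun n => Rough (tt A i ^ σ) n ∧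
      ∃ q : ℕ, q.Prime ∧ q ∣ n ∧ tt A i ^ (1 / 2 + σ) ≤ (q : ℝ)) with hS
  have hu : (1 : ℝ) ≤ i := by exact_mod_cast hi
  have hu0 : (0 : ℝ) < i := by linarith
  have hx1 : (1 : ℝ) ≤ tt A i := Real.one_le_rpow hu (by linarith)
  have hfacts : ∀ n ∈ S, n ∈ B A i ∧ n ≠ 0 ∧ Rough (tt A i ^ σ) n ∧ (PF n).Prime ∧ PF n ∣ n ∧
      tt A i ^ (1 / 2 + σ) ≤ (PF n : ℝ) := by
    intro n hn
    rw [hS, mem_filter] at hn
    obtain ⟨h1, h2, q, hq, hqn, hq2⟩ := hn
    have hB := Ival_sub hA1 hi h1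
    have hn0 : n ≠ 0 := by
      rintro rfl
      have := (mem_B hB).1
      have h3 : (0 : ℝ) < (i : ℝ) ^ A := by positivity
      simp only [Nat.cast_zero] at this
      linarith
    obtain ⟨a, b, c⟩ := PF_spec hn0 hq hqn
    exact ⟨hB, hn0, h2, a, b, hq2.trans (by exact_mod_cast c)⟩
  have hkk : ∀ n ∈ S, kk σ i ≤ blk A (PF n) := by
    intro n hn
    obtain ⟨_, _, _, _, _, h⟩ := hfacts n hn
    unfold kk blk
    apply Nat.floor_le_floor
    have h1 := Real.rpow_le_rpow (by positivity) h (show 0 ≤ 1 / A by positivity)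
    unfold tt at h1
    rwa [← Real.rpow_mul hu0.le, ← Real.rpow_mul hu0.le,
      show A * (1 / 2 + σ) * (1 / A) = 1 / 2 + σ by field_simp] at h1
  have hHq : ∀ n ∈ S, HH A i ≤ (PF n : ℝ) := by
    intro n hn
    obtain ⟨_, _, _, _, _, h⟩ := hfacts n hn
    refine le_trans ?_ h
    unfold HH tt
    rw [← Real.rpow_mul hu0.le]
    apply Real.rpow_le_rpow_of_exponent_le hu
    nlinarith
  have hinj : Set.InjOn PF S := by
    have key : ∀ n ∈ S, ∀ n' ∈ S, PF n = PF n' → n ≤ n' → n = n' := by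
      intro n hn n' hn' he hle
      by_contra hne
      obtain ⟨_, _, _, _, d1, _⟩ := hfacts n hn
      obtain ⟨_, _, _, _, d2, _⟩ := hfacts n' hn'
      have d3 : PF n ∣ n' - n := Nat.dvd_sub (he ▸ d2) d1
      have h1 : PF n ≤ n' - n := Nat.le_of_dvd (by omega) d3
      have h2 : (PF n : ℝ) ≤ (n' : ℝ) - n := by
        rw [← Nat.cast_sub hle]; exact_mod_cast h1
      have m1 := (mem_filter.1 hn).1
      have m2 := (mem_filter.1 hn').1
      unfold Ival at m1 m2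
      rw [mem_Ico, Nat.ceil_le, Nat.lt_ceil] at m1 m2
      have := hHq n hn
      linarith [m1.1, m2.2]
    intro n hn n' hn' he
    rcases le_total n n' with h | h
    · exact key n hn n' hn' he h
    · exact (key n' hn' n hn he.symm h).symm
  have h1 : S.card ≤ (Hand A σ σ M i).card + (S \ Hand A σ σ M i).card := by
    have : S ⊆ Hand A σ σ M i ∪ (S \ Hand A σ σ M i) := by
      intro n hn
      by_cases h : n ∈ Hand A σ σ M i
      · exact mem_union_left _ h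
      · exact mem_union_right _ (mem_sdiff.2 ⟨hn, h⟩)
    exact (card_le_card this).trans (card_union_le _ _)
  refine h1.trans (Nat.add_le_add_left ?_ _)
  have h2 : (S \ Hand A σ σ M i).card ≤ (((range (i + 1)).filter (fun c => c ∈ M)).biUnion
      (fun c => if c < i then Fset A σ σ c i else ∅)).card := by
    refine card_le_card_of_injOn PF ?_ (hinj.mono (by intro n hn; exact (mem_sdiff.1 hn).1))
    intro n hn
    have hn' := mem_sdiff.1 (mem_coe.1 hn)
    obtain ⟨hB, hn0, hR, hp, hd, _⟩ := hfacts n hn'.1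
    have h3 := hn'.2
    unfold Hand at h3
    rw [mem_filter] at h3
    push Not at h3
    obtain ⟨c, hcM, hc1, hci, n', hn'B, hdn'⟩ := h3 hB hR (hkk n hn'.1)
    rw [mem_coe, mem_biUnion]
    refine ⟨c, mem_filter.2 ⟨mem_range.2 (by omega), hcM⟩, ?_⟩
    rw [if_pos hci]
    unfold Fset
    rw [mem_filter]
    obtain ⟨m, hm⟩ := hd
    obtain ⟨a, ha⟩ := hdn'
    have hB' := hB
    unfold B at hB' 
    rw [mem_Ico] at hB'
    refine ⟨mem_range.2 (lt_of_le_of_lt (Nat.le_of_dvd (Nat.pos_of_ne_zero hn0) ⟨m, hm⟩) hB'.2), hp,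
      hkk n hn'.1, a, m, ?_, ?_, ?_, ?_⟩
    · rw [mul_comm, ← ha]; exact hn'B
    · rw [mul_comm, ← hm]; exact hB
    · intro p hp' hpm
      exact hR p hp' (hpm.trans ⟨PF n, by rw [mul_comm]; exact hm⟩)
    · intro hma
      have h4 : n ∣ n' := by
        rw [ha]
        conv_lhs => rw [hm]
        exact Nat.mul_dvd_mul_left _ hma
      have hc0 : (0 : ℝ) < c := by exact_mod_cast hc1
      have h5 : (0 : ℝ) < n' := lt_of_lt_of_le (by positivity) (mem_B hn'B).1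
      have h6 : n ≤ n' := Nat.le_of_dvd (by exact_mod_cast h5) h4
      have h7 : ((c : ℝ) + 1) ^ A ≤ (i : ℝ) ^ A :=
        Real.rpow_le_rpow (by positivity) (by exact_mod_cast hci) (by linarith)
      have h8 : (n : ℝ) ≤ n' := by exact_mod_cast h6
      linarith [(mem_B hn'B).2, (mem_B hB).1]
  refine h2.trans (card_biUnion_le.trans (sum_le_sum fun c _ => ?_))
  split_ifs <;> simp

theorem many {A σ c₁ μ CM c₂ y₀ : ℝ} {i₀ : ℕ} {M : Set ℕ} (hσ : 0 < σ) (hσ1 : σ ≤ 1 / 1000)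
    (hA1 : 2 - σ / 100 ≤ A) (hA2 : A < 2) (hc₁ : 0 < c₁) (hμ : μ ≤ σ / 1000) (hCM : 0 < CM)
    (hc₂ : 0 < c₂) (hH : Handles' σ σ c₁) (hF : Frac A σ σ) (hS : Sparse M CM μ)
    (hfree : ∀ y : ℝ, y₀ ≤ y → ∀ i : ℕ, i₀ ≤ i → i ∉ M →
      c₂ * HH A i / Real.log i ≤ ((Free A σ M y i).card : ℝ)) :
    Many A σ σ M (min c₂ (c₁ / 4)) := by
  classical
  obtain ⟨x₀, hx₀⟩ := hH
  obtain ⟨j₀, _, hF2⟩ := hF
  have hA : 199 / 100 ≤ A := by linarith
  have t1 : Tendsto (fun n : ℕ => tt A n) atTop atTop :=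
    (tendsto_rpow_atTop (by linarith : 0 < A)).comp tendsto_natCast_atTop_atTop
  have e1 : ∀ᶠ n : ℕ in atTop, x₀ ≤ tt A n := t1.eventually_ge_atTop x₀
  have e2 : ∀ᶠ n : ℕ in atTop, y₀ ≤ tt A n ^ σ :=
    ((tendsto_rpow_atTop hσ).comp t1).eventually_ge_atTop y₀
  have e3 : ∀ᶠ n : ℕ in atTop, Real.log n ≤ c₁ / (4 * CM) * (n : ℝ) ^ (σ / 5) := by
    have h := (isLittleO_log_rpow_atTop (show 0 < σ / 5 by positivity)).bound
      (show 0 < c₁ / (4 * CM) by positivity)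
    filter_upwards [tendsto_natCast_atTop_atTop.eventually h] with n hn
    rw [Real.norm_eq_abs, Real.norm_eq_abs, abs_of_nonneg (by positivity : 0 ≤ (n : ℝ) ^ (σ / 5))] at hn
    exact (le_abs_self _).trans hn
  obtain ⟨k₀, hk₀⟩ := eventually_atTop.1 (e1.and (e2.and (e3.and ((eventually_ge_atTop 2).and
    ((eventually_ge_atTop i₀).and (eventually_ge_atTop j₀))))))
  refine ⟨k₀, fun i₁ hi₁ i hi => ?_⟩
  obtain ⟨a1, _, a3, a4, a5, a6⟩ := hk₀ i (hi₁.trans hi)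
  have hu : (2 : ℝ) ≤ i := by exact_mod_cast a4
  have hu0 : (0 : ℝ) < i := by linarith
  have hlog : 0 < Real.log i := Real.log_pos (by linarith)
  have hH0 : 0 < HH A i := by unfold HH; positivity
  unfold Act
  split_ifs with hM
  · have h1 := hx₀ (tt A i) a1 (HH A i) (by
      unfold HH tt
      rw [← Real.rpow_mul hu0.le]
      apply Real.rpow_le_rpow_of_exponent_le (by linarith)
      nlinarith) (by
      unfold HH tt
      rw [← Real.rpow_mul hu0.le]
      apply Real.rpow_le_rpow_of_exponent_le (by linarith)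
      linarith)
    have h2 := hand_card hσ (by linarith) hA2.le M (show 1 ≤ i by omega)
    have h3 : (((Ival (tt A i) (HH A i)).filter (fun n => Rough (tt A i ^ σ) n ∧
        ∃ q : ℕ, q.Prime ∧ q ∣ n ∧ tt A i ^ (1 / 2 + σ) ≤ (q : ℝ))).card : ℝ) ≤
        (Hand A σ σ M i).card + ∑ c ∈ (range (i + 1)).filter (fun c => c ∈ M),
          ((if c < i then (Fset A σ σ c i).card else 0 : ℕ) : ℝ) := by exact_mod_cast h2
    have h4 : ∑ c ∈ (range (i + 1)).filter (fun c => c ∈ M),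
          ((if c < i then (Fset A σ σ c i).card else 0 : ℕ) : ℝ) ≤
        CM * (i : ℝ) ^ μ * (HH A i * (i : ℝ) ^ (-(σ / 4))) := by
      calc _ ≤ ∑ _c ∈ (range (i + 1)).filter (fun c => c ∈ M), HH A i * (i : ℝ) ^ (-(σ / 4)) := by
            refine sum_le_sum fun c _ => ?_
            split_ifs with hc
            · exact hF2 c i a6 hc
            · simp only [Nat.cast_zero]; positivity
        _ = _ * (HH A i * (i : ℝ) ^ (-(σ / 4))) := by rw [sum_const, nsmul_eq_mul]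
        _ ≤ _ := mul_le_mul_of_nonneg_right (hS i (by omega)) (by positivity)
    have h5 : CM * (i : ℝ) ^ μ * (HH A i * (i : ℝ) ^ (-(σ / 4))) ≤ c₁ / 4 * HH A i / Real.log i := by
      have b1 : (i : ℝ) ^ μ * (i : ℝ) ^ (-(σ / 4)) * (i : ℝ) ^ (σ / 5) ≤ 1 := by
        rw [← Real.rpow_add hu0, ← Real.rpow_add hu0]
        exact Real.rpow_le_one_of_one_le_of_nonpos (by linarith) (by linarith)
      rw [le_div_iff₀ hlog]
      calc CM * (i : ℝ) ^ μ * (HH A i * (i : ℝ) ^ (-(σ / 4))) * Real.log i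
          ≤ CM * (i : ℝ) ^ μ * (HH A i * (i : ℝ) ^ (-(σ / 4))) *
            (c₁ / (4 * CM) * (i : ℝ) ^ (σ / 5)) := mul_le_mul_of_nonneg_left a3 (by positivity)
        _ = c₁ / 4 * HH A i * ((i : ℝ) ^ μ * (i : ℝ) ^ (-(σ / 4)) * (i : ℝ) ^ (σ / 5)) := by
            field_simp
        _ ≤ _ := mul_le_of_le_one_right (by positivity) b1
    have h6 : c₁ / 2 * HH A i / Real.log i ≤ c₁ * HH A i / Real.log (tt A i) := by
      unfold tt
      rw [Real.log_rpow hu0, div_le_div_iff₀ hlog (by positivity)]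
      have : 0 < c₁ * HH A i * Real.log i := by positivity
      nlinarith
    have h7 : min c₂ (c₁ / 4) * HH A i / Real.log i ≤ c₁ / 4 * HH A i / Real.log i := by
      gcongr; exact min_le_right _ _
    have h8 : c₁ / 2 * HH A i / Real.log i = 2 * (c₁ / 4 * HH A i / Real.log i) := by ring
    linarith
  · refine le_trans ?_ (hfree _ (hk₀ i₁ hi₁).2.1 i a5 hM)
    gcongr; exact min_le_left _ _

/-- Assembly of the construction. -/
theorem goal_of (hI1 : S_I1) (hI2 : S_I2) (hI3 : S_I3') (hFam : S_Fam) (hEst : S_Est)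
    (hCon : S_Con) (h : NoZero) : GoalCM := by
  obtain ⟨σ, c₁, hσ, hσ1, hc₁, hH⟩ := hI3
  obtain ⟨C, hC, hRB⟩ := hI2
  obtain ⟨η₀, hη₀, hfam⟩ := hFam (hI1 h) C hC hRB σ (σ / 1000) hσ (by linarith) (by positivity)
    (by linarith)
  set A : ℝ := 2 - min η₀ (σ / 100) with hAdef
  have hm : 0 < min η₀ (σ / 100) := lt_min hη₀ (by positivity)
  have hA2 : A < 2 := by linarith
  have hA1 : 2 - σ / 100 ≤ A := by linarith [min_le_right η₀ (σ / 100)]
  have hA0 : 0 < A := by linarith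
  obtain ⟨M, CM, c₂, y₀, i₀, hCM, hc₂, hS, hfree⟩ :=
    hfam A hA2 (by linarith [min_le_left η₀ (σ / 100)])
  have hF : Frac A σ σ := frac A σ σ hσ le_rfl (by linarith) hA1 hA2
  have hgap : 0 < 1 / A - 1 / 2 := by
    have : 1 / 2 < 1 / A := one_div_lt_one_div_of_lt hA0 hA2
    linarith
  set ε : ℝ := min (σ / 1000) ((1 / A - 1 / 2) / 2) with hε
  have hε0 : 0 < ε := lt_min (by positivity) (by positivity)
  have hε1 : ε ≤ σ / 1000 := min_le_left _ _
  have hε2 : ε < 1 / A - 1 / 2 := lt_of_le_of_lt (min_le_right _ _) (by linarith)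
  have hE : Est A σ σ ε M := hEst C hC hRB A σ σ ε (σ / 1000) CM M hσ le_rfl (by linarith) hA1 hA2
    hε0 hε1 (by positivity) le_rfl hCM hS hF
  exact hCon A σ σ ε (σ / 1000) CM (min c₂ (c₁ / 4)) M hσ le_rfl (by linarith) hA1 hA2 hε0 hε2
    (by positivity) (by linarith) hCM (lt_min hc₂ (by positivity)) hS
    (many hσ hσ1 hA1 hA2 hc₁ le_rfl hCM hc₂ hH hF hS hfree) hE

end Pool.Agent.H293Z.MO
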