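import Mathlib
import Pool.Agent.H293Z.MO.Many
import Pool.Agent.H392Z.MO.Core
import Pool.Agent.H392Z.MO.Fam
import Pool.Agent.H519Z.MO.LdI5
import Pool.Agent.H199Z.GF
import Pool.Agent.H168Z.MS.Main
import Pool.Agent.H506Z.FP2
import Pool.Agent.H31Z.Psi
import Pool.Agent.H421Z.MO.Sieve
import Pool.Agent.H129Z.Med
import Pool.Agent.H301Z.CH.B

set_option autoImplicit false

open Finset Filter Topology

namespace Pool.Agent.H293Z.MO

open Pool.Agent.H392Z.MO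

theorem goal (h : NoZero) : GoalCM :=
  goal_of
    (i1_of Pool.Agent.H519Z.MO.ld Pool.Agent.H199Z.GF.gf Pool.Agent.H168Z.MS.pl
      Pool.Agent.H168Z.MS.ms Pool.Agent.H506Z.FP.fp)
    (Pool.Agent.H421Z.MO.rb Pool.Agent.H421Z.MO.sel)
    (Pool.Agent.H301Z.CH.ch Pool.Agent.H421Z.MO.fl
      (Pool.Agent.H129Z.Med.med Pool.Agent.H31Z.Psi.psi Pool.Agent.H421Z.MO.sel))
    fam est con h

theorem noZero_of_RH (h : RiemannHypothesis) : NoZero := by
  intro s hs hz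
  have h1 : s ≠ 1 := by
    rintro rfl
    exact riemannZeta_one_ne_zero hz
  have h2 : ¬ ∃ n : ℕ, s = -2 * (n + 1) := by
    rintro ⟨n, rfl⟩
    have : (-2 * ((n : ℂ) + 1)).re = -2 * ((n : ℝ) + 1) := by simp
    rw [this] at hs
    have : (0 : ℝ) ≤ n := Nat.cast_nonneg n
    linarith
  have := h s hz h2 h1
  linarith

theorem littleO_of (f : ℕ → ℂ)
    (h : Tendsto (fun x : ℝ => Real.sqrt x * ‖∑ n ∈ Finset.Icc 1 ⌊x⌋₊, f n‖) atTop (𝓝 0)) :
    (fun x : ℝ => ∑ n ∈ Finset.Icc 1 ⌊x⌋₊, f n) =o[atTop] (fun x : ℝ => x ^ (-(1 / 2) : ℝ)) := by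
  rw [Asymptotics.isLittleO_iff]
  intro c hc
  filter_upwards [h.eventually (gt_mem_nhds hc), eventually_gt_atTop (0 : ℝ)] with x hx hx0
  have hs : 0 < Real.sqrt x := Real.sqrt_pos.2 hx0
  rw [Real.norm_eq_abs, abs_of_pos (Real.rpow_pos_of_pos hx0 _), Real.rpow_neg hx0.le,
    ← Real.sqrt_eq_rpow, ← div_eq_mul_inv, le_div_iff₀ hs, mul_comm]
  exact hx.le

theorem tendsto_of (f : ℕ → ℂ)
    (h : Tendsto (fun x : ℝ => Real.sqrt x * ‖∑ n ∈ Finset.Icc 1 ⌊x⌋₊, f n‖) atTop (𝓝 0)) :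
    Tendsto (fun N : ℕ => ∑ n ∈ Finset.Icc 1 N, f n) atTop (𝓝 0) := by
  have h1 := h.comp (tendsto_natCast_atTop_atTop (R := ℝ))
  rw [tendsto_zero_iff_norm_tendsto_zero]
  refine squeeze_zero' (Eventually.of_forall fun _ => norm_nonneg _) ?_ h1
  filter_upwards [eventually_ge_atTop 1] with N hN
  simp only [Function.comp, Nat.floor_natCast]
  have h2 : (1 : ℝ) ≤ Real.sqrt N := Real.one_le_sqrt.2 (by exact_mod_cast hN)
  exact le_mul_of_one_le_left (norm_nonneg _) h2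

theorem mo : ∃ f : ℕ → ℂ, f 1 = 1 ∧
    (∀ m n : ℕ, 0 < m → 0 < n → Nat.Coprime m n → f (m * n) = f m * f n) ∧
    (∀ p : ℕ, p.Prime → ∃ b : ℂ, b ≠ 0 ∧
      Tendsto (fun K : ℕ => ∑ k ∈ Finset.range K, f (p ^ k)) atTop (𝓝 b)) ∧
    Tendsto (fun x : ℝ => Real.sqrt x * ‖∑ n ∈ Finset.Icc 1 ⌊x⌋₊, f n‖) atTop (𝓝 0) := by
  by_cases h : NoZero
  · obtain ⟨f, h1, h2, h3, h4⟩ := goal h
    refine ⟨f, h1, fun m n hm hn _ => h2 m n hm hn, fun p hp => ?_, h4⟩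
    have hpow : ∀ k : ℕ, f (p ^ k) = f p ^ k := by
      intro k
      induction k with
      | zero => simpa using h1
      | succ k ih => rw [pow_succ, h2 _ _ (pow_pos hp.pos k) hp.pos, ih, pow_succ]
    refine ⟨(1 - f p)⁻¹, inv_ne_zero ?_, ?_⟩
    · intro h0
      have : f p = 1 := by linear_combination -h0
      have h5 := h3 p hp
      rw [this, norm_one] at h5
      exact lt_irrefl _ h5
    · simp only [hpow]
      exact (hasSum_geometric_of_norm_lt_one (h3 p hp)).tendsto_sum_nat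
  · obtain ⟨f, h1, h2, h3⟩ := Pool.Agent.H519Z.MO.i5 h
    exact ⟨f, h1.1, fun m n _ _ hc => h1.2 hc, h2, h3⟩

end Pool.Agent.H293Z.MO
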